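import Mathlib
import Pool.Agent.R732.DD.Defs
import Pool.Agent.R732.DD.Matrix

set_option autoImplicit false

/-!
# A lower bound for `Γ_p(H(n,r))` for all `r` and all `p`

For all `r ≥ 2` and `1 ≤ p ≤ r - 1`: `Γ_p(H(n,r)) ≥ c (log n) ^ (1 / (r - 1))`. This is new already for
`p = 1` and `r = 3`. The proof constructs, on `exp (O (k ^ (r - 1)))` vertices, a digraph without
directed closed walks of length at most `r` in which every `k` vertices are dominated by one vertex.
-/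

namespace Pool.Agent.Results.MP_869403_co.AllUniformities

open Finset Filter
open Pool.Agent.R732.DD

variable {k N : ℕ}

/-! ### A digraph without closed walks of length `m + 2` -/

/-- the vertices: `m + 2` functions on the words of length `m` -/
abbrev W (k N m : ℕ) : Type := (Fin (m + 1) → (Fin m → Fin k) → Fin N) × ((Fin m → Fin k) → Fin N)

/-- the edges -/
def Ed (M : Fin N → Fin N → Bool) (m : ℕ) (u s : W k N m) : Prop :=
  (∀ i, M (s.1 (Fin.last m) i) (u.2 i) = true) ∧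
  (∀ i, M (u.1 0 i) (s.2 i) = false) ∧
  ∀ j : Fin m, ∃ a : Fin k, ∀ i : Fin m → Fin k, i j = a → u.1 j.succ i = s.1 j.castSucc i

/-- no closed walks of length `m + 2` -/
lemma no_walk (M : Fin N → Fin N → Bool) (m : ℕ) (v : ℕ → W k N m) (hv : ∀ t, Ed M m (v (t + 1)) (v t))
    (hc : v (m + 2) = v 0) : False := by
  have h3 : ∀ j : Fin m, ∃ a : Fin k, ∀ i : Fin m → Fin k, i j = a →
      (v ((j : ℕ) + 2)).1 j.succ i = (v ((j : ℕ) + 1)).1 j.castSucc i := fun j => (hv ((j : ℕ) + 1)).2.2 j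
  choose a ha using h3
  have key : ∀ j : ℕ, ∀ hj : j < m + 1, (v (j + 1)).1 ⟨j, hj⟩ a = (v 1).1 0 a := by
    intro j
    induction j with
    | zero => intro hj; rfl
    | succ j ih =>
      intro hj
      have h1 := ha ⟨j, by omega⟩ a rfl
      rw [← ih (by omega)]
      exact h1
  have h1 : M ((v 1).1 0 a) ((v 0).2 a) = false := (hv 0).2.1 a
  have h2 : M ((v (m + 1)).1 (Fin.last m) a) ((v (m + 2)).2 a) = true := (hv (m + 1)).1 a
  have h4 : (v (m + 1)).1 (Fin.last m) a = (v 1).1 0 a := key m (by omega)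
  rw [hc, h4, h1] at h2
  exact Bool.false_ne_true h2

/-- every `k` vertices are dominated -/
lemma dominated (M : Fin N → Fin N → Bool) (hM1 : ∀ f : Fin k → Fin N, ∃ j, ∀ i, M (f i) j = true)
    (hM0 : ∀ g : Fin k → Fin N, ∃ i, ∀ j, M i (g j) = false) (m : ℕ) (s : Fin k → W k N m) :
    ∃ u : W k N m, ∀ a, Ed M m u (s a) := by
  choose z hz using fun i : Fin m → Fin k => hM1 (fun a => (s a).1 (Fin.last m) i)
  choose y hy using fun i : Fin m → Fin k => hM0 (fun a => (s a).2 i)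
  refine ⟨(Fin.cons y (fun j i => (s (i j)).1 j.castSucc i), z), fun a => ⟨fun i => hz i a, fun i => ?_,
    fun j => ⟨a, fun i hi => ?_⟩⟩⟩
  · show M (Fin.cons (α := fun _ => (Fin m → Fin k) → Fin N) y
      (fun j i => (s (i j)).1 j.castSucc i) 0 i) ((s a).2 i) = false
    rw [Fin.cons_zero]
    exact hy i a
  · show Fin.cons (α := fun _ => (Fin m → Fin k) → Fin N) y
      (fun j i => (s (i j)).1 j.castSucc i) j.succ i = (s a).1 j.castSucc i
    rw [Fin.cons_succ, hi]

/-! ### A digraph without closed walks of length at most `r` -/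

/-- the vertices -/
abbrev V (k N r : ℕ) : Type := (m : Fin (r - 1)) → W k N m

/-- the edges -/
def Ad (M : Fin N → Fin N → Bool) (r : ℕ) (u s : V k N r) : Prop := ∀ m : Fin (r - 1), Ed M m (u m) (s m)

lemma no_walk_le (M : Fin N → Fin N → Bool) {r : ℕ} (hr : 2 ≤ r) (c : ℕ) (hc1 : 1 ≤ c) (hcr : c ≤ r)
    (v : ℕ → V k N r) (hv : ∀ t, Ad M r (v (t + 1)) (v t)) (hc : ∀ t, v (t + c) = v t) : False := by
  rcases Nat.lt_or_ge c 2 with h | h
  · have hc' : c = 1 := by omega
    subst hc'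
    refine no_walk M 0 (fun t => v t ⟨0, by omega⟩) (fun t => hv t ⟨0, by omega⟩) ?_
    show v 2 _ = v 0 _
    rw [hc 1, hc 0]
  · refine no_walk M (c - 2) (fun t => v t ⟨c - 2, by omega⟩) (fun t => hv t ⟨c - 2, by omega⟩) ?_
    show v (c - 2 + 2) _ = v 0 _
    have e : c - 2 + 2 = 0 + c := by omega
    rw [e, hc 0]

lemma card_V (k N r : ℕ) (hk : 1 ≤ k) (hN : N ≤ 8 ^ k) : Fintype.card (V k N r) ≤ 8 ^ (r ^ 2 * k ^ (r - 1)) := by
  have h1 : Fintype.card (V k N r) = ∏ m : Fin (r - 1), N ^ (((m : ℕ) + 2) * k ^ (m : ℕ)) := by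
    rw [Fintype.card_pi]
    apply prod_congr rfl
    intro m _
    rw [Fintype.card_prod]
    simp only [Fintype.card_fun, Fintype.card_fin]
    rw [← pow_mul, ← pow_add]
    congr 1
    ring
  rw [h1]
  have h2 : ∀ m : Fin (r - 1), N ^ (((m : ℕ) + 2) * k ^ (m : ℕ)) ≤ 8 ^ (r * k ^ (r - 1)) := by
    intro m
    calc N ^ (((m : ℕ) + 2) * k ^ (m : ℕ)) ≤ (8 ^ k) ^ (((m : ℕ) + 2) * k ^ (m : ℕ)) := Nat.pow_le_pow_left hN _
      _ = 8 ^ (((m : ℕ) + 2) * k ^ ((m : ℕ) + 1)) := by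
        rw [← pow_mul]
        congr 1
        ring
      _ ≤ 8 ^ (r * k ^ (r - 1)) := by
        apply Nat.pow_le_pow_right (by norm_num)
        have hm := m.2
        apply Nat.mul_le_mul (by omega)
        exact Nat.pow_le_pow_right hk (by omega)
  calc ∏ m : Fin (r - 1), N ^ (((m : ℕ) + 2) * k ^ (m : ℕ)) ≤ ∏ m : Fin (r - 1), 8 ^ (r * k ^ (r - 1)) :=
        prod_le_prod' fun m _ => h2 m
    _ = 8 ^ ((r * k ^ (r - 1)) * (r - 1)) := by
        rw [prod_const, card_univ, Fintype.card_fin, ← pow_mul]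
    _ ≤ 8 ^ (r ^ 2 * k ^ (r - 1)) := by
        apply Nat.pow_le_pow_right (by norm_num)
        calc (r * k ^ (r - 1)) * (r - 1) ≤ (r * k ^ (r - 1)) * r := Nat.mul_le_mul_left _ (Nat.sub_le _ _)
          _ = r ^ 2 * k ^ (r - 1) := by ring

/-- the bound in terms of `k` -/
theorem lower {p r : ℕ} (hr : 2 ≤ r) (hp : 1 ≤ p) (hpr : p ≤ r) (k n : ℕ) (hk : 1 ≤ k)
    (hn : 8 ^ (r ^ 2 * k ^ (r - 1)) ≤ n) : k + 1 ≤ Gam p r n := by
  classical
  obtain ⟨N, hN1, hN, M, hM1, hM0⟩ := exists_matrix' k hk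
  have hne : Nonempty (V k N r) := ⟨fun _ => (fun _ _ => ⟨0, hN1⟩, fun _ => ⟨0, hN1⟩)⟩
  refine of_rel' (V := V k N r) (Ad M r) ?_ ((card_V k N r hk hN).trans hn) ?_ ?_
  · intro a ha
    exact no_walk_le M hr 1 le_rfl (by omega) (fun _ => a) (fun _ => ha) (fun _ => rfl)
  · intro S hS
    obtain ⟨f, hf⟩ := exists_enum k S hS
    choose u hu using fun m : Fin (r - 1) => dominated M hM1 hM0 m (fun a => f a m)
    refine ⟨u, fun s hs => ?_⟩
    obtain ⟨a, rfl⟩ := hf s hs
    exact fun m => hu m a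
  · intro π E hE
    -- a source
    obtain ⟨x, hx, hsrc⟩ : ∃ x ∈ E, ∀ y ∈ E, ¬ Ad M r (π y) (π x) := by
      by_contra hcon
      push Not at hcon
      choose! f hf using hcon
      obtain ⟨x0, hx0⟩ := card_pos.1 (by omega : 0 < E.card)
      have hmem : ∀ t : ℕ, f^[t] x0 ∈ E := by
        intro t
        induction t with
        | zero => exact hx0
        | succ t ih =>
          rw [Function.iterate_succ_apply']
          exact (hf _ ih).1
      obtain ⟨i, hi, j, hj, hij, he⟩ := exists_ne_map_eq_of_card_lt_of_maps_to (s := range (r + 1)) (t := E)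
        (by rw [card_range, hE]; omega) (f := fun t => f^[t] x0) (fun t _ => hmem t)
      wlog hlt : i < j generalizing i j with H
      · exact H j hj i hi hij.symm he.symm (by omega)
      rw [mem_range] at hi hj
      refine no_walk_le M hr (j - i) (by omega) (by omega) (fun t => π (f^[t + i] x0)) (fun t => ?_)
        (fun t => ?_)
      · show Ad M r (π (f^[t + 1 + i] x0)) (π (f^[t + i] x0))
        rw [show t + 1 + i = (t + i) + 1 by ring, Function.iterate_succ_apply']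
        exact (hf _ (hmem _)).2
      · show π (f^[t + (j - i) + i] x0) = π (f^[t + i] x0)
        rw [show t + (j - i) + i = t + j by omega, Function.iterate_add_apply, Function.iterate_add_apply]
        have he' : f^[i] x0 = f^[j] x0 := he
        rw [he']
    obtain ⟨F, hxF, hFE, hFp⟩ := exists_subsuperset_card_eq (singleton_subset_iff.2 hx)
      (by rw [card_singleton]; exact hp) (by rw [hE]; exact hpr : p ≤ E.card)
    exact ⟨F, hFE, hFp, fun u hu h => hsrc u hu (h x (singleton_subset_iff.1 hxF))⟩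

/-- **A lower bound for all uniformities.** For all `r ≥ 2` there is `c > 0` such that for all
`1 ≤ p ≤ r - 1` and all `n ≥ r`: `Γ_p(H(n,r)) ≥ c (log n) ^ (1 / (r - 1))`. -/
theorem result (r : ℕ) (hr : 2 ≤ r) : ∃ c : ℝ, 0 < c ∧ ∀ p : ℕ, 1 ≤ p → p < r → ∀ n : ℕ, r ≤ n →
    c * (Real.log n) ^ (1 / ((r : ℝ) - 1)) ≤ (Gam p r n : ℝ) := by
  have hr1 : (1 : ℝ) ≤ (r : ℝ) - 1 := by
    have : (2 : ℝ) ≤ r := by exact_mod_cast hr
    linarith
  set A : ℝ := 4 * (r : ℝ) ^ 2 with hA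
  have hA0 : 0 < A := by positivity
  refine ⟨(1 / A) ^ (1 / ((r : ℝ) - 1)), Real.rpow_pos_of_pos (by positivity) _, ?_⟩
  intro p hp hpr n hn
  have hlog : 0 ≤ Real.log n := Real.log_natCast_nonneg n
  rw [← Real.mul_rpow (by positivity) hlog]
  set x : ℝ := (1 / A * Real.log n) ^ (1 / ((r : ℝ) - 1)) with hx
  have hx0 : 0 ≤ x := by positivity
  have hG1 : 1 ≤ Gam p r n := by
    refine of_rel (k := 0) (fun _ _ => False) (fun _ h => h) (fun S hS => ?_) (fun E hE => ?_)
    · rw [Nat.le_zero, card_eq_zero] at hS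
      subst hS
      exact ⟨⟨0, by omega⟩, fun s hs => absurd hs (notMem_empty s)⟩
    · obtain ⟨F, hF, hFc⟩ := exists_subset_card_eq (by rw [hE]; exact hpr.le : p ≤ E.card)
      refine ⟨F, hF, hFc, fun u _ h => ?_⟩
      obtain ⟨f, hf⟩ := card_pos.1 (by rw [hFc]; exact hp : 0 < F.card)
      exact h f hf
  have hxk : x < (⌊x⌋₊ : ℝ) + 1 := Nat.lt_floor_add_one x
  rcases Nat.eq_zero_or_pos ⌊x⌋₊ with h0 | h0
  · rw [h0] at hxk
    have h1 : (1 : ℝ) ≤ Gam p r n := by exact_mod_cast hG1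
    simp at hxk
    linarith
  · have hkx : (⌊x⌋₊ : ℝ) ≤ x := Nat.floor_le hx0
    have h1 : ((⌊x⌋₊ : ℕ) : ℝ) ^ (r - 1) ≤ 1 / A * Real.log n := by
      calc ((⌊x⌋₊ : ℕ) : ℝ) ^ (r - 1) ≤ x ^ (r - 1) := pow_le_pow_left₀ (Nat.cast_nonneg _) hkx _
        _ = 1 / A * Real.log n := by
          rw [hx, ← Real.rpow_natCast, ← Real.rpow_mul (by positivity), Nat.cast_sub (by omega), Nat.cast_one,
            one_div_mul_cancel (by linarith), Real.rpow_one]
    have h2 : 8 ^ (r ^ 2 * ⌊x⌋₊ ^ (r - 1)) ≤ n := by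
      have hn0 : (0 : ℝ) < n := by exact_mod_cast (by omega : 0 < n)
      have h3 : (((8 ^ (r ^ 2 * ⌊x⌋₊ ^ (r - 1)) : ℕ)) : ℝ) ≤ n := by
        rw [← Real.log_le_log_iff (by positivity) hn0]
        push_cast
        rw [Real.log_pow]
        push_cast
        have h4 : Real.log 8 ≤ 4 := by
          rw [show (8 : ℝ) = 2 ^ 3 by norm_num, Real.log_pow]
          have := Real.log_two_lt_d9
          push_cast
          linarith
        calc (r : ℝ) ^ 2 * (⌊x⌋₊ : ℝ) ^ (r - 1) * Real.log 8 ≤ (r : ℝ) ^ 2 * (1 / A * Real.log n) * 4 := by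
              gcongr
          _ = Real.log n := by
              rw [hA]
              field_simp
      exact_mod_cast h3
    have h3 := lower hr hp hpr.le ⌊x⌋₊ n h0 h2
    have h4 : (⌊x⌋₊ : ℝ) + 1 ≤ Gam p r n := by exact_mod_cast h3
    linarith

end Pool.Agent.Results.MP_869403_co.AllUniformities
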