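import Mathlib
import Pool.Agent.R732.DD.Defs

set_option autoImplicit false

/-!
# The upper directed `1`-domination number of `H(n,r)`, `r ≥ 3`, is `O(log n / log log n)`

So for every `r ≥ 3` the order of `Γ_1(H(n,r))` is smaller than the order `log n` of `Γ_(r-1)(H(n,r))`.
-/

namespace Pool.Agent.Results.MP_869403_co.OneDomination

open Finset
open Pool.Agent.R732.DD

variable {r n : ℕ}

/-- `u` escapes `s`: no edge through `u` has `s` as its first vertex -/
def Esc (D : Orientation r n) (hr : 0 < r) (u s : Fin n) : Prop :=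
  u ≠ s ∧ ∀ E : Edge r n, u ∈ E.1 → (D E ⟨0, hr⟩).1 ≠ s

lemma exists_esc (D : Orientation r n) (hr : 0 < r) {k : ℕ} (hk : k + 1 ≤ gam 1 D) (S : Finset (Fin n))
    (hS : S.card ≤ k) : ∃ u, u ∉ S ∧ ∀ s ∈ S, Esc D hr u s := by
  have h : ¬ Dominating 1 D S := fun h => by
    have := gam_le_of D S h
    omega
  unfold Dominating at h
  push Not at h
  obtain ⟨u, hu, h1⟩ := h
  refine ⟨u, hu, fun s hs => ⟨fun h => hu (h ▸ hs), fun E hE h2 => ?_⟩⟩
  obtain ⟨i, hi, hi2⟩ := h1 E hE
  apply hi2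
  have e : i = ⟨0, hr⟩ := by
    apply Fin.ext
    show (i : ℕ) = 0
    omega
  rw [e, h2]
  exact hs

/-- every `k ^ 2` vertices are reached in two steps from one vertex -/
lemma two_steps (D : Orientation r n) (hr : 0 < r) {k : ℕ} (hk : k + 1 ≤ gam 1 D)
    (t : Fin k × Fin k → Fin n) : ∃ w, ∀ x, ∃ v, Esc D hr w v ∧ Esc D hr v (t x) := by
  classical
  have h1 : ∀ i : Fin k, ∃ v, ∀ j, Esc D hr v (t (i, j)) := by
    intro i
    obtain ⟨v, -, hv⟩ := exists_esc D hr hk (univ.image (fun j => t (i, j)))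
      (card_image_le.trans (by simp))
    exact ⟨v, fun j => hv _ (mem_image_of_mem _ (mem_univ j))⟩
  choose v hv using h1
  obtain ⟨w, -, hw⟩ := exists_esc D hr hk (univ.image v) (card_image_le.trans (by simp))
  exact ⟨w, fun x => ⟨v x.1, hw _ (mem_image_of_mem _ (mem_univ _)), hv x.1 x.2⟩⟩

/-- the two-step neighbourhoods of `k` vertices do not cover -/
lemma not_cover (D : Orientation r n) (hr : 3 ≤ r) {k : ℕ} (hk : k + 1 ≤ gam 1 D) (hkr : r ≤ k + 1)
    (f : Fin k → Fin n) : ∃ w, ∀ i, ¬ ∃ y, Esc D (by omega) (f i) y ∧ Esc D (by omega) y w := by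
  classical
  have hkn : k ≤ n := by
    have := gam_le (p := 1) D
    omega
  obtain ⟨S, hfS, -, hS⟩ := exists_subsuperset_card_eq (subset_univ (univ.image f))
    (card_image_le.trans (by simp) : (univ.image f).card ≤ k) (by rw [card_univ, Fintype.card_fin]; exact hkn)
  obtain ⟨w, hwS, hw⟩ := exists_esc D (by omega) hk S hS.le
  refine ⟨w, fun i => ?_⟩
  rintro ⟨y, hvy, hyw⟩
  have hv : f i ∈ S := hfS (mem_image_of_mem f (mem_univ i))
  have hwv := hw _ hv
  -- the other vertices
  obtain ⟨T, hT, hTc⟩ := exists_subset_card_eq (s := (S.erase (f i)).erase y) (n := r - 3) (by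
    have h1 := pred_card_le_card_erase (s := S.erase (f i)) (a := y)
    have h2 := card_erase_of_mem hv
    omega)
  have hTS : ∀ x ∈ T, x ≠ y ∧ x ≠ f i ∧ x ∈ S := by
    intro x hx
    have := hT hx
    rw [mem_erase, mem_erase] at this
    exact this
  have hE : (insert w (insert (f i) (insert y T))).card = r := by
    rw [card_insert_of_notMem, card_insert_of_notMem, card_insert_of_notMem, hTc]
    · omega
    · exact fun h => (hTS y h).1 rfl
    · rw [mem_insert, not_or]
      exact ⟨hvy.1, fun h => (hTS _ h).2.1 rfl⟩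
    · rw [mem_insert, mem_insert, not_or, not_or]
      exact ⟨hwv.1, hyw.1.symm, fun h => hwS (hTS _ h).2.2⟩
  set E : Edge r n := ⟨insert w (insert (f i) (insert y T)), hE⟩ with hEdef
  have hwE : w ∈ E.1 := mem_insert_self _ _
  have hvE : f i ∈ E.1 := mem_insert_of_mem (mem_insert_self _ _)
  have hyE : y ∈ E.1 := mem_insert_of_mem (mem_insert_of_mem (mem_insert_self _ _))
  have hhead := (D E ⟨0, by omega⟩).2
  have hhead' : (D E ⟨0, by omega⟩).1 ∈ insert w (insert (f i) (insert y T)) := hhead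
  rw [mem_insert, mem_insert, mem_insert] at hhead'
  rcases hhead' with h | h | h | h
  · exact hyw.2 E hyE h
  · exact hwv.2 E hwE h
  · exact hvy.2 E hvE h
  · exact (hw _ (hTS _ h).2.2).2 E hwE rfl

open Classical in
/-- the complement of the two-step neighbourhood -/
noncomputable def Mi (D : Orientation r n) (hr : 0 < r) (w : Fin n) : Finset (Fin n) :=
  univ.filter (fun x => ¬ ∃ v, Esc D hr w v ∧ Esc D hr v x)

/-- in every set `Z` some `Mi w` is sparse -/
lemma sparse (D : Orientation r n) (hr : 0 < r) {k : ℕ} (hk : k + 1 ≤ gam 1 D) (τ : ℝ) (_hτ1 : τ ≤ 1)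
    (hτn : (n : ℝ) * (1 - τ) ^ (k * k) < 1) (Z : Finset (Fin n)) :
    ∃ w : Fin n, ((Z ∩ Mi D hr w).card : ℝ) ≤ τ * Z.card := by
  classical
  rcases Z.eq_empty_or_nonempty with rfl | hZ
  · obtain ⟨w, -⟩ := exists_esc D hr hk ∅ (by simp)
    exact ⟨w, by simp⟩
  by_contra hcon
  push Not at hcon
  have hsub : Fintype.piFinset (fun _ : Fin k × Fin k => Z) ⊆
      (univ : Finset (Fin n)).biUnion (fun w => Fintype.piFinset (fun _ : Fin k × Fin k => Z \ Mi D hr w)) := by
    intro t ht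
    rw [Fintype.mem_piFinset] at ht
    obtain ⟨w, hw⟩ := two_steps D hr hk t
    rw [mem_biUnion]
    refine ⟨w, mem_univ w, ?_⟩
    rw [Fintype.mem_piFinset]
    intro x
    rw [Finset.mem_sdiff]
    refine ⟨ht x, fun h => ?_⟩
    unfold Mi at h
    rw [mem_filter] at h
    exact h.2 (hw x)
  have h1 := (card_le_card hsub).trans card_biUnion_le
  simp only [Fintype.card_piFinset, prod_const, card_univ, Fintype.card_prod, Fintype.card_fin] at h1
  have hZ0 : (0 : ℝ) < Z.card := by exact_mod_cast card_pos.2 hZ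
  have h2 : ∀ w, (((Z \ Mi D hr w).card : ℕ) : ℝ) ≤ (1 - τ) * Z.card := by
    intro w
    have h3 := card_sdiff_add_card_inter Z (Mi D hr w)
    have h4 : (((Z \ Mi D hr w).card : ℕ) : ℝ) + ((Z ∩ Mi D hr w).card : ℕ) = Z.card := by exact_mod_cast h3
    have h5 := hcon w
    linarith
  have h3 : ((Z.card : ℕ) : ℝ) ^ (k * k) ≤ ∑ w : Fin n, (((Z \ Mi D hr w).card : ℕ) : ℝ) ^ (k * k) := by
    exact_mod_cast h1
  have h4 : ∑ w : Fin n, (((Z \ Mi D hr w).card : ℕ) : ℝ) ^ (k * k) ≤
      ∑ w : Fin n, ((1 - τ) * Z.card) ^ (k * k) :=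
    sum_le_sum fun w _ => pow_le_pow_left₀ (Nat.cast_nonneg _) (h2 w) _
  rw [sum_const, card_univ, Fintype.card_fin, nsmul_eq_mul, mul_pow] at h4
  have h5 : (0 : ℝ) < ((Z.card : ℕ) : ℝ) ^ (k * k) := by positivity
  nlinarith

/-- the inequality for `k` -/
lemma main_ineq (D : Orientation r n) (hr : 3 ≤ r) {k : ℕ} (hk : k + 1 ≤ gam 1 D) (hkr : r ≤ k + 1)
    (τ : ℝ) (hτ0 : 0 ≤ τ) (hτ1 : τ ≤ 1) (hτn : (n : ℝ) * (1 - τ) ^ (k * k) < 1) : 1 ≤ τ ^ k * n := by
  classical
  have key : ∀ j : ℕ, ∃ f : Fin j → Fin n,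
      ((univ.filter (fun x : Fin n => ∀ i, x ∈ Mi D (by omega) (f i))).card : ℝ) ≤ τ ^ j * n := by
    intro j
    induction j with
    | zero =>
      refine ⟨Fin.elim0, ?_⟩
      rw [pow_zero, one_mul]
      have := card_le_univ (univ.filter (fun x : Fin n => ∀ i : Fin 0, x ∈ Mi D (by omega) (Fin.elim0 i)))
      rw [Fintype.card_fin] at this
      exact_mod_cast this
    | succ j ih =>
      obtain ⟨f, hf⟩ := ih
      obtain ⟨w, hw⟩ := sparse D (by omega) hk τ hτ1 hτn
        (univ.filter (fun x : Fin n => ∀ i, x ∈ Mi D (by omega) (f i)))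
      refine ⟨Fin.snoc (α := fun _ => Fin n) f w, ?_⟩
      have h1 : univ.filter (fun x : Fin n => ∀ i, x ∈ Mi D (by omega)
          (Fin.snoc (α := fun _ => Fin n) f w i)) ⊆
          (univ.filter (fun x : Fin n => ∀ i, x ∈ Mi D (by omega) (f i))) ∩ Mi D (by omega) w := by
        intro x hx
        rw [mem_filter] at hx
        rw [mem_inter, mem_filter]
        refine ⟨⟨mem_univ x, fun i => ?_⟩, ?_⟩
        · have := hx.2 i.castSucc
          rwa [Fin.snoc_castSucc] at this
        · have := hx.2 (Fin.last j)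
          rwa [Fin.snoc_last] at this
      calc (((univ.filter (fun x : Fin n => ∀ i, x ∈ Mi D (by omega)
            (Fin.snoc (α := fun _ => Fin n) f w i))).card : ℕ) : ℝ) ≤
            (((univ.filter (fun x : Fin n => ∀ i, x ∈ Mi D (by omega) (f i))) ∩
              Mi D (by omega) w).card : ℕ) := by exact_mod_cast card_le_card h1
        _ ≤ τ * ((univ.filter (fun x : Fin n => ∀ i, x ∈ Mi D (by omega) (f i))).card : ℕ) := hw
        _ ≤ τ * (τ ^ j * n) := by gcongr
        _ = τ ^ (j + 1) * n := by ring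
  obtain ⟨f, hf⟩ := key k
  obtain ⟨w, hw⟩ := not_cover D hr hk hkr f
  refine le_trans ?_ hf
  have : 0 < (univ.filter (fun x : Fin n => ∀ i, x ∈ Mi D (by omega) (f i))).card := by
    apply card_pos.2
    refine ⟨w, ?_⟩
    rw [mem_filter]
    refine ⟨mem_univ w, fun i => ?_⟩
    unfold Mi
    rw [mem_filter]
    exact ⟨mem_univ w, hw i⟩
  exact_mod_cast this

lemma bound (D : Orientation r n) (hr : 3 ≤ r) (hn : 3 ≤ n) {k : ℕ} (hk : k + 1 ≤ gam 1 D)
    (hkr : r ≤ k + 1) : (k : ℝ) ≤ 6 * (Real.log n / Real.log (Real.log n)) := by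
  have hn3 : (3 : ℝ) ≤ n := by exact_mod_cast hn
  set L := Real.log n with hL
  have hL1 : 1 < L := by
    rw [hL, Real.lt_log_iff_exp_lt (by linarith)]
    have := Real.exp_one_lt_d9
    linarith
  have hLL : 0 < Real.log L := Real.log_pos hL1
  by_contra hcon
  push Not at hcon
  have hk0 : (0 : ℝ) < k := lt_of_le_of_lt (by positivity) hcon
  -- `k ^ 2 ≥ 2 L ^ (3/2)`
  have h1 : Real.log L ≤ L ^ ((1 : ℝ) / 4) / (1 / 4) := Real.log_le_rpow_div (by linarith) (by norm_num)
  set q := L ^ ((1 : ℝ) / 4) with hq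
  have hq0 : 0 < q := Real.rpow_pos_of_pos (by linarith) _
  have hq4 : q ^ 4 = L := by
    rw [hq, ← Real.rpow_natCast, ← Real.rpow_mul (by linarith)]
    norm_num
  have hq1 : 1 < q := by
    rw [hq]
    exact Real.one_lt_rpow hL1 (by norm_num)
  have h2 : 6 * L < k * Real.log L := by
    rw [← mul_div_assoc, div_lt_iff₀ hLL] at hcon
    exact hcon
  have h3 : 6 * L < k * (4 * q) := by
    have h4 : (k : ℝ) * Real.log L ≤ k * (4 * q) := by
      apply mul_le_mul_of_nonneg_left _ hk0.le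
      calc Real.log L ≤ q / (1 / 4) := h1
        _ = 4 * q := by ring
    linarith
  have h4 : 3 / 2 * q ^ 3 < k := by
    rw [← hq4] at h3
    nlinarith
  have h5 : 2 * q ^ 6 < (k : ℝ) * k := by
    have h6 : (3 / 2 * q ^ 3) * (3 / 2 * q ^ 3) < (k : ℝ) * k := by
      apply mul_lt_mul'' h4 h4 (by positivity) (by positivity)
    have h7 : 0 < q ^ 6 := by positivity
    nlinarith
  -- the choice of `τ`
  set τ := 2 * L / ((k : ℝ) * k) with hτ
  have hkk : (0 : ℝ) < (k : ℝ) * k := by positivity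
  have hτ0 : 0 < τ := by positivity
  have hτq : τ ≤ 1 / q ^ 2 := by
    rw [hτ, div_le_div_iff₀ hkk (by positivity), ← hq4]
    nlinarith
  have hτ1 : τ ≤ 1 := by
    refine hτq.trans ?_
    rw [div_le_one (by positivity)]
    exact one_le_pow₀ hq1.le
  have hτn : (n : ℝ) * (1 - τ) ^ (k * k) < 1 := by
    have h6 : (1 - τ) ^ (k * k) ≤ Real.exp (-(2 * L)) := by
      calc (1 - τ) ^ (k * k) ≤ (Real.exp (-τ)) ^ (k * k) :=
            pow_le_pow_left₀ (by linarith) (Real.one_sub_le_exp_neg _) _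
        _ = Real.exp (-(2 * L)) := by
            rw [← Real.exp_nat_mul]
            congr 1
            push_cast
            rw [hτ]
            field_simp
    have h7 : (n : ℝ) = Real.exp L := by
      rw [hL, Real.exp_log (by linarith)]
    calc (n : ℝ) * (1 - τ) ^ (k * k) ≤ n * Real.exp (-(2 * L)) := by gcongr
      _ = Real.exp (-L) := by
          rw [h7, ← Real.exp_add]
          congr 1
          ring
      _ < 1 := by
          rw [Real.exp_lt_one_iff]
          linarith
  have h6 := main_ineq D hr hk hkr τ hτ0.le hτ1 hτn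
  -- conclusion
  have h7 : 0 ≤ k * Real.log τ + L := by
    have h8 := Real.log_nonneg h6
    rw [Real.log_mul (by positivity) (by linarith), Real.log_pow] at h8
    exact h8
  have h8 : Real.log τ ≤ -(1 / 2 * Real.log L) := by
    calc Real.log τ ≤ Real.log (1 / q ^ 2) := Real.log_le_log hτ0 hτq
      _ = -(1 / 2 * Real.log L) := by
        rw [one_div, Real.log_inv, Real.log_pow, ← hq4, Real.log_pow]
        push_cast
        ring
  nlinarith

/-- **`1`-domination.** For all `r ≥ 3` and all `n ≥ 3`: `Γ_1(H(n,r)) ≤ (r + 6) log n / log log n`. -/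
theorem result (r : ℕ) (hr : 3 ≤ r) (n : ℕ) (hn : 3 ≤ n) :
    (Gam 1 r n : ℝ) ≤ (r + 6) * (Real.log n / Real.log (Real.log n)) := by
  have hn3 : (3 : ℝ) ≤ n := by exact_mod_cast hn
  have hL1 : 1 < Real.log n := by
    rw [Real.lt_log_iff_exp_lt (by linarith)]
    have := Real.exp_one_lt_d9
    linarith
  have hLL : 0 < Real.log (Real.log n) := Real.log_pos hL1
  have hq1 : 1 ≤ Real.log n / Real.log (Real.log n) := by
    rw [one_le_div hLL]
    have := Real.log_le_sub_one_of_pos (by linarith : 0 < Real.log n)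
    linarith
  have hr0 : (0 : ℝ) ≤ r := Nat.cast_nonneg r
  have h0 : 0 ≤ (r + 6) * (Real.log n / Real.log (Real.log n)) := by positivity
  have h1 : Gam 1 r n ≤ ⌊(r + 6) * (Real.log n / Real.log (Real.log n))⌋₊ := by
    apply Gam_le
    intro D
    apply Nat.le_floor
    rcases Nat.lt_or_ge (gam 1 D) r with h | h
    · have h2 : ((gam 1 D : ℕ) : ℝ) ≤ r := by exact_mod_cast h.le
      nlinarith
    · obtain ⟨k, hk⟩ : ∃ k, gam 1 D = k + 1 := ⟨gam 1 D - 1, by omega⟩
      have h2 := bound D hr hn (k := k) hk.ge (by omega)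
      rw [hk]
      push_cast
      have h3 : (3 : ℝ) ≤ r := by exact_mod_cast hr
      nlinarith
  calc (Gam 1 r n : ℝ) ≤ (⌊(r + 6) * (Real.log n / Real.log (Real.log n))⌋₊ : ℝ) := by exact_mod_cast h1
    _ ≤ (r + 6) * (Real.log n / Real.log (Real.log n)) := Nat.floor_le h0

end Pool.Agent.Results.MP_869403_co.OneDomination
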